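import Mathlib
import Pool.Agent.Lib.MP_b6bd4b_an.BP.Glue

/-!
The uniform (Bishop-Phelps-Bollobás) form of property B fails for the Euclidean plane, and for every
Banach space whose norm is of class `C²` near a point with a non-zero second derivative.
-/

open Pool.Agent.Lib.MP_b6bd4b_an

namespace Pool.Agent.Results.MP_b6bd4b_an.NoUniversalBollobas

universe u

/-- The pair `(X, Y)` fails the Bishop-Phelps-Bollobás property: there are `ε > 0` and an operator
`T : X → Y` with `‖T‖ = 1` such that for every `η > 0` some unit vector `x` has `‖T x‖ > 1 - η` and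
no operator `S : X → Y` with `‖S - T‖ < ε` attains its norm at a unit vector `z` with
`‖z - x‖ < ε`. -/
def FailsBPB (X Y : Type*) [NormedAddCommGroup X] [NormedSpace ℝ X] [NormedAddCommGroup Y]
    [NormedSpace ℝ Y] : Prop :=
  ∃ ε : ℝ, 0 < ε ∧ ∃ T : X →L[ℝ] Y, ‖T‖ = 1 ∧ ∀ η : ℝ, 0 < η → ∃ x : X, ‖x‖ = 1 ∧
    1 - η < ‖T x‖ ∧ ∀ (S : X →L[ℝ] Y) (z : X), ‖S - T‖ < ε → ‖z‖ = 1 → ‖S z‖ = ‖S‖ →
      ε ≤ ‖z - x‖

/-- There is a real Banach space `X` such that the norm attaining operators `X → F` are dense for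
every Banach space `F` (Lindenstrauss' property A), and such that the pair `(X, Y)` fails the
Bishop-Phelps-Bollobás property for the Euclidean plane `Y`, and for every real Banach space `Y`
whose norm is of class `C²` near a point `y` and has there a non-zero second derivative in a
direction `e`. -/
theorem result : ∃ (X : Type) (_ : NormedAddCommGroup X) (_ : NormedSpace ℝ X)
    (_ : CompleteSpace X),
    (∀ (F : Type u) [NormedAddCommGroup F] [NormedSpace ℝ F],
      Dense {S : X →L[ℝ] F | ∃ x : X, ‖x‖ ≤ 1 ∧ ‖S x‖ = ‖S‖}) ∧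
    FailsBPB X (EuclideanSpace ℝ (Fin 2)) ∧
    ∀ (Y : Type u) [NormedAddCommGroup Y] [NormedSpace ℝ Y] [CompleteSpace Y] (y e : Y),
      ContDiffAt ℝ 2 (fun v : Y => ‖v‖) y → iteratedDeriv 2 (fun s : ℝ => ‖y + s • e‖) 0 ≠ 0 →
      FailsBPB X Y := by
  classical
  refine ⟨BP.XX, inferInstance, inferInstance, inferInstance, fun F _ _ => BP.dense_attain, ?_,
    fun Y _ _ _ y e h he => BP.main h he⟩
  -- the Euclidean plane
  have hn : ∀ s : ℝ, ‖(EuclideanSpace.single (0 : Fin 2) (1 : ℝ)) +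
      s • (EuclideanSpace.single (1 : Fin 2) (1 : ℝ))‖ = √(1 + s ^ 2) := by
    intro s
    rw [EuclideanSpace.norm_eq]
    simp [Fin.sum_univ_two]
  have hd : ∀ s : ℝ, HasDerivAt (fun s : ℝ => √(1 + s ^ 2)) (s / √(1 + s ^ 2)) s := by
    intro s
    have h0 : (1 + s ^ 2 : ℝ) ≠ 0 := by positivity
    have h1 : HasDerivAt (fun s : ℝ => 1 + s ^ 2) (2 * s) s := by
      simpa using (hasDerivAt_pow 2 s).const_add 1
    have h2 := h1.sqrt h0
    convert h2 using 1
    field_simp
  refine BP.main (y := EuclideanSpace.single (0 : Fin 2) (1 : ℝ))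
    (e := EuclideanSpace.single (1 : Fin 2) (1 : ℝ)) (contDiffAt_norm ℝ ?_) ?_
  · intro h
    have := congrArg (fun v => ‖v‖) h
    simp at this
  · have h1 : (fun s : ℝ => ‖(EuclideanSpace.single (0 : Fin 2) (1 : ℝ)) +
        s • (EuclideanSpace.single (1 : Fin 2) (1 : ℝ))‖) = fun s : ℝ => √(1 + s ^ 2) := funext hn
    rw [h1, iteratedDeriv_succ, iteratedDeriv_one]
    have h2 : deriv (fun s : ℝ => √(1 + s ^ 2)) = fun s => s / √(1 + s ^ 2) :=
      funext fun s => (hd s).deriv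
    rw [h2]
    have h3 : HasDerivAt (fun s : ℝ => s / √(1 + s ^ 2))
        ((1 * √(1 + (0 : ℝ) ^ 2) - 0 * ((0 : ℝ) / √(1 + (0 : ℝ) ^ 2))) / √(1 + (0 : ℝ) ^ 2) ^ 2) 0 :=
      (hasDerivAt_id (0 : ℝ)).div (hd 0) (by simp)
    rw [h3.deriv]
    simp

end Pool.Agent.Results.MP_b6bd4b_an.NoUniversalBollobas
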