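import Pool.Agent.Lib.MP_b6bd4b_an.SQ.FinE
import Pool.Agent.Lib.MP_b6bd4b_an.SQ.FinF

/-!
# Norm attaining quadratic forms near `‖T ·‖²`, `T : X → ℓ₂^d`, and second order property B

An operator `T : X → ℓ₂^d` attains its norm if and only if the quadratic form `‖T ·‖²` does.  We show that for every
real Banach space `X`, every `T` and every almost norming point there is a point `x` nearby such that

1. the form `‖T ·‖² - c`, with a small form `c`, attains its norm at `x`;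
2. some operator `S` near `T` attains its norm at `x` up to a second order error,
   `‖S y‖² ≤ ‖S x‖² + ε ‖y - x‖²` on the unit ball (in a stronger form, for convex combinations);
3. for `d = 2` the operator `S` satisfies exactly the second order necessary condition for norm attainment at `x`
   (`necessary`): `‖S u‖² ≤ K ‖S x‖²` if `‖x + t u‖² + ‖x - t u‖² ≤ 2 + 2 K t²` for all small `t`.  In particular
   `S u = 0` if `‖x + t u‖ ≤ 1 + o(t²)`, for instance if `x + u` and `x - u` are in the unit ball; this is true for all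
   `d`.

* `result`: the theorem.
* `necessary`: the necessary condition.
* `forms`: the same for the quadratic forms `‖T ·‖² - N`, `N ≥ 0` of any rank.
* `finiteType`: every quadratic form of finite type is a limit of norm attaining continuous quadratic forms.
* The variational principle behind the theorem is `Pool.Agent.Lib.MP_b6bd4b_an.SQ.variational`: it holds on closed
  convex bounded sets for all Lipschitz functions `Φ` such that `Φ - ‖T ·‖²` is concave.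
-/

namespace Pool.Agent.Results.MP_b6bd4b_an.QuadraticFormsAttain

universe u

section

variable {X : Type*} [NormedAddCommGroup X] [NormedSpace ℝ X]

/-- The weak second moment of the vectors `u i` with weights `w i` is at most `M`. -/
def WeakMomentLE {n : ℕ} (w : Fin n → ℝ) (u : Fin n → X) (M : ℝ) : Prop :=
  ∀ g : X →L[ℝ] ℝ, ‖g‖ ≤ 1 → ∑ i, w i * g (u i) ^ 2 ≤ M

/-- The symmetric bilinear form `c` is small, and even small in the `2`-dominated sense. -/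
def SmallForm (ε : ℝ) (c : X →L[ℝ] X →L[ℝ] ℝ) : Prop :=
  (∀ u v, c u v = c v u) ∧ ‖c‖ < ε ∧
    ∀ (n : ℕ) (u : Fin n → X) (M : ℝ), WeakMomentLE (fun _ => 1) u M → ∑ i, |c (u i) (u i)| ≤ ε * M

/-- The quadratic form `q` attains its norm (its maximal absolute value on the unit ball) at the unit vector `x`. -/
def NormAttainedAt (q : X → ℝ) (x : X) : Prop :=
  ‖x‖ = 1 ∧ ∀ y : X, ‖y‖ ≤ 1 → |q y| ≤ q x

/-- `q` attains its maximum on the unit ball at `x` up to a second order error, for all convex combinations. -/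
def SecondOrderAttainedAt (ε : ℝ) (q : X → ℝ) (x : X) : Prop :=
  ∀ (n : ℕ) (w : Fin n → ℝ) (y : Fin n → X) (M : ℝ), (∀ i, 0 ≤ w i) → ∑ i, w i = 1 →
    (∀ i, ‖y i‖ ≤ 1) → WeakMomentLE w (fun i => y i - x) M → ∑ i, w i * q (y i) ≤ q x + ε * M

/-- `‖x + t u‖² + ‖x - t u‖² ≤ 2 + 2 K t²` for all small `t`. -/
def SecondDifferenceLE (x u : X) (K : ℝ) : Prop :=
  ∃ r : ℝ, 0 < r ∧ ∀ t : ℝ, |t| < r → ‖x + t • u‖ ^ 2 + ‖x - t • u‖ ^ 2 ≤ 2 + 2 * K * t ^ 2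

/-- `‖x + t u‖ ≤ 1 + o(t²)`. -/
def FlatDirection (x u : X) : Prop :=
  ∀ δ : ℝ, 0 < δ → ∃ r : ℝ, 0 < r ∧ ∀ t : ℝ, |t| < r → ‖x + t • u‖ ≤ 1 + δ * t ^ 2

/-- The bilinear form `N` is symmetric and positive. -/
def PositiveForm (N : X →L[ℝ] X →L[ℝ] ℝ) : Prop :=
  (∀ u v, N u v = N v u) ∧ ∀ u, 0 ≤ N u u

/-- The quadratic form `‖T y‖² - N(y, y)`. -/
noncomputable def form {d : ℕ} (T : X →L[ℝ] EuclideanSpace ℝ (Fin d)) (N : X →L[ℝ] X →L[ℝ] ℝ) (y : X) : ℝ :=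
  ‖T y‖ ^ 2 - N y y

end

/-- For every `d` and `ε > 0` there is `η > 0` such that for every real Banach space `X`, every `T : X → ℓ₂^d` with
`‖T‖ = 1` and every `x₀` in the unit ball with `‖T x₀‖ > 1 - η` there is a unit vector `x` with `‖x - x₀‖ < ε` such that
(1) some quadratic form `‖T y‖² - c(y, y)` with a small form `c` attains its norm at `x`, and some operator `S` with
`‖S - T‖ < ε` (2) attains its norm at `x` up to a second order error and (3) satisfies at `x` the second order necessary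
condition for norm attainment; this condition is exact for `d = 2`, and up to the factor `d - 1` for `d > 2`. -/
theorem result (d : ℕ) (ε : ℝ) (hε : 0 < ε) : ∃ η : ℝ, 0 < η ∧
    ∀ (X : Type u) [NormedAddCommGroup X] [NormedSpace ℝ X] [CompleteSpace X]
      (T : X →L[ℝ] EuclideanSpace ℝ (Fin d)), ‖T‖ = 1 → ∀ x₀ : X, ‖x₀‖ ≤ 1 → 1 - η < ‖T x₀‖ →
      ∃ x : X, ‖x - x₀‖ < ε ∧
        (∃ c : X →L[ℝ] X →L[ℝ] ℝ, SmallForm ε c ∧ NormAttainedAt (fun y => ‖T y‖ ^ 2 - c y y) x) ∧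
        ∃ S : X →L[ℝ] EuclideanSpace ℝ (Fin d), ‖S - T‖ < ε ∧ SecondOrderAttainedAt ε (fun y => ‖S y‖ ^ 2) x ∧
          ∀ (u : X) (K : ℝ), SecondDifferenceLE x u K → ‖S u‖ ^ 2 ≤ max 1 ((d : ℝ) - 1) * K * ‖S x‖ ^ 2 := by
  rcases Nat.eq_zero_or_pos d with hd | hd
  · subst hd
    refine ⟨1, one_pos, fun X _ _ _ T hT => ?_⟩
    exfalso
    have h1 : T = 0 := by
      ext x i
      exact i.elim0
    rw [h1, norm_zero] at hT
    exact zero_ne_one hT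
  obtain ⟨m, rfl⟩ : ∃ m : ℕ, d = m + 1 := ⟨d - 1, by omega⟩
  obtain ⟨η, hη, h⟩ := Pool.Agent.Lib.MP_b6bd4b_an.SQ.operatorsExact.{u} m ε hε
  refine ⟨η, hη, fun X _ _ _ T hT x₀ hx₀ hTx₀ => ?_⟩
  obtain ⟨c, S, x, h1, h2, h3, h4, h5, h6, h7, h8, h9⟩ := h X T hT x₀ hx₀ hTx₀
  refine ⟨x, h4, ⟨c, ⟨h1, h2, fun n u M hM => h3 n u M fun g hg => ?_⟩, h5, h6⟩, S, h7, ?_, fun u K hu => ?_⟩
  · simpa using hM g hg
  · intro n w y M hw0 hw1 hy hM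
    have e1 := h8 n w y M hw0 hw1 hy hM
    simpa using e1
  · have e1 := h9 u K hu
    have e2 : ((m + 1 : ℕ) : ℝ) - 1 = m := by push_cast; ring
    rw [e2]
    exact e1

/-- The second order necessary condition for norm attainment. -/
theorem necessary {X : Type*} [NormedAddCommGroup X] [NormedSpace ℝ X] {d : ℕ}
    (S : X →L[ℝ] EuclideanSpace ℝ (Fin d)) (x : X) (hS : ∀ y : X, ‖S y‖ ≤ ‖S x‖ * ‖y‖) (u : X) (K : ℝ)
    (hu : SecondDifferenceLE x u K) : ‖S u‖ ^ 2 ≤ K * ‖S x‖ ^ 2 := by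
  obtain ⟨r, hr, h⟩ := hu
  have h1 := h (r / 2) (by rw [abs_of_pos (by positivity)]; linarith)
  obtain ⟨t, ht⟩ : ∃ t : ℝ, t = r / 2 := ⟨_, rfl⟩
  have ht0 : 0 < t := by rw [ht]; positivity
  rw [← ht] at h1
  have h2 := pow_le_pow_left₀ (norm_nonneg _) (hS (x + t • u)) 2
  have h3 := pow_le_pow_left₀ (norm_nonneg _) (hS (x - t • u)) 2
  have h4 : ‖S (x + t • u)‖ ^ 2 + ‖S (x - t • u)‖ ^ 2 = 2 * ‖S x‖ ^ 2 + 2 * t ^ 2 * ‖S u‖ ^ 2 := by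
    rw [map_add, map_sub, map_smul, norm_add_sq_real, norm_sub_sq_real, norm_smul, mul_pow, Real.norm_eq_abs, sq_abs]
    ring
  have h5 := mul_le_mul_of_nonneg_left h1 (sq_nonneg ‖S x‖)
  have h6 : t ^ 2 * ‖S u‖ ^ 2 ≤ t ^ 2 * (K * ‖S x‖ ^ 2) := by
    rw [mul_pow] at h2 h3
    nlinarith
  exact le_of_mul_le_mul_left h6 (by positivity)

/-- In a flat direction `u` every `K > 0` is admissible, so `S u = 0` by (3). -/
theorem FlatDirection.secondDifferenceLE {X : Type*} [NormedAddCommGroup X] [NormedSpace ℝ X] {x u : X}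
    (hu : FlatDirection x u) {K : ℝ} (hK : 0 < K) : SecondDifferenceLE x u K := by
  obtain ⟨δ, hδ, hδK, hδ1⟩ : ∃ δ : ℝ, 0 < δ ∧ 3 * δ ≤ K ∧ δ ≤ 1 :=
    ⟨min (K / 3) 1, by positivity, by have := min_le_left (K / 3) 1; linarith, min_le_right _ _⟩
  obtain ⟨r, hr, h⟩ := hu δ hδ
  refine ⟨min r 1, by positivity, fun t ht => ?_⟩
  have ht1 : |t| ≤ 1 := ht.le.trans (min_le_right _ _)
  have h1 := h t (ht.trans_le (min_le_left _ _))
  have h2 := h (-t) (by rw [abs_neg]; exact ht.trans_le (min_le_left _ _))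
  rw [neg_smul, ← sub_eq_add_neg, neg_sq] at h2
  have h3 := pow_le_pow_left₀ (norm_nonneg _) h1 2
  have h4 := pow_le_pow_left₀ (norm_nonneg _) h2 2
  have h5 : t ^ 2 ≤ 1 := by
    rw [← sq_abs]
    exact pow_le_one₀ (abs_nonneg _) ht1
  have h6 : (1 + δ * t ^ 2) ^ 2 ≤ 1 + 3 * δ * t ^ 2 := by
    have e1 : δ * t ^ 2 ≤ 1 := by nlinarith [sq_nonneg t]
    have e2 : 0 ≤ δ * t ^ 2 := mul_nonneg hδ.le (sq_nonneg t)
    nlinarith
  have h7 := mul_le_mul_of_nonneg_right hδK (sq_nonneg t)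
  linarith

/-- Let `P(y) = ‖T y‖² - N(y, y)`, `T : X → ℓ₂^d`, `‖T‖ ≤ R`, `N` a positive continuous symmetric bilinear form,
`|P| ≤ 1` on the unit ball.  If `P(x₀) > 1 - η`, `η = η(d, R, ε)`, then there is a unit vector `x` with `‖x - x₀‖ < ε`
such that for some small symmetric bilinear form `c` the quadratic form `P(y) - c(y, y)` attains its norm at `x`, and for
some operator `S` with `‖S - T‖ < ε` the quadratic form `‖S y‖² - N(y, y)` attains its maximum on the unit ball at `x`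
up to a second order error, and `S u = 0` for all flat directions `u` at `x` with `N(u, u) = 0`. -/
theorem forms (d : ℕ) (R ε : ℝ) (hε : 0 < ε) : ∃ η : ℝ, 0 < η ∧
    ∀ (X : Type u) [NormedAddCommGroup X] [NormedSpace ℝ X] [CompleteSpace X]
      (T : X →L[ℝ] EuclideanSpace ℝ (Fin d)) (N : X →L[ℝ] X →L[ℝ] ℝ), ‖T‖ ≤ R → PositiveForm N →
      (∀ y : X, ‖y‖ ≤ 1 → |form T N y| ≤ 1) →
      ∀ x₀ : X, ‖x₀‖ ≤ 1 → 1 - η < form T N x₀ →
      ∃ x : X, ‖x - x₀‖ < ε ∧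
        (∃ c : X →L[ℝ] X →L[ℝ] ℝ, SmallForm ε c ∧ NormAttainedAt (fun y => form T N y - c y y) x) ∧
        ∃ S : X →L[ℝ] EuclideanSpace ℝ (Fin d), ‖S - T‖ < ε ∧ SecondOrderAttainedAt ε (form S N) x ∧
          ∀ u : X, FlatDirection x u → N u u = 0 → S u = 0 := by
  obtain ⟨η, hη, h⟩ := Pool.Agent.Lib.MP_b6bd4b_an.SQ.quadFormsFlat.{u} d R ε hε
  refine ⟨η, hη, fun X _ _ _ T N hT hN hP x₀ hx₀ hPx₀ => ?_⟩
  obtain ⟨c, S, x, h1, h2, h3, h4, h5, h6, h7, h8, h9⟩ := h X T N hT hN.1 hN.2 hP x₀ hx₀ hPx₀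
  refine ⟨x, h4, ⟨c, ⟨h1, h2, fun n u M hM => h3 n u M fun g hg => ?_⟩, h5, h6⟩, S, h7, h8, h9⟩
  simpa using hM g hg

open RealInnerProductSpace in
/-- The quadratic form `‖A y‖²`. -/
theorem squareForm {X : Type*} [NormedAddCommGroup X] [NormedSpace ℝ X] {m : ℕ}
    (A : X →L[ℝ] EuclideanSpace ℝ (Fin m)) :
    ∃ N : X →L[ℝ] X →L[ℝ] ℝ, PositiveForm N ∧ ∀ y, N y y = ‖A y‖ ^ 2 := by
  obtain ⟨N, hN⟩ : ∃ N : X →L[ℝ] X →L[ℝ] ℝ, ∀ u v, N u v = ⟪A u, A v⟫ :=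
    ⟨(((innerSL ℝ).comp A).flip.comp A).flip, fun u v => rfl⟩
  refine ⟨N, ⟨fun u v => ?_, fun u => ?_⟩, fun y => ?_⟩
  · rw [hN, hN, real_inner_comm]
  · rw [hN]
    exact real_inner_self_nonneg
  · rw [hN, real_inner_self_eq_norm_sq]

/-- A bound for the norm of a bilinear form. -/
theorem norm_form_le {X : Type*} [NormedAddCommGroup X] [NormedSpace ℝ X] (c c' : X →L[ℝ] X →L[ℝ] ℝ) (K : ℝ)
    (hK : 0 ≤ K) (h : ∀ u v, |c' u v| ≤ K * |c u v|) : ‖c'‖ ≤ K * ‖c‖ := by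
  refine ContinuousLinearMap.opNorm_le_bound₂ _ (mul_nonneg hK (by positivity)) fun u v => ?_
  have h1 := c.le_opNorm₂ u v
  rw [Real.norm_eq_abs] at h1 ⊢
  calc |c' u v| ≤ K * |c u v| := h u v
    _ ≤ K * (‖c‖ * ‖u‖ * ‖v‖) := mul_le_mul_of_nonneg_left h1 hK
    _ = K * ‖c‖ * ‖u‖ * ‖v‖ := by ring

/-- Quadratic forms of finite type whose maximum is their norm. -/
theorem finiteType_aux {X : Type u} [NormedAddCommGroup X] [NormedSpace ℝ X] [CompleteSpace X] {m m' : ℕ}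
    (A : X →L[ℝ] EuclideanSpace ℝ (Fin m)) (A' : X →L[ℝ] EuclideanSpace ℝ (Fin m')) (ε : ℝ) (hε : 0 < ε)
    (K : ℝ) (hK : 0 < K) (hb : ∀ y : X, ‖y‖ ≤ 1 → |‖A y‖ ^ 2 - ‖A' y‖ ^ 2| ≤ K)
    (hsup : ∀ δ : ℝ, 0 < δ → ∃ x₀ : X, ‖x₀‖ ≤ 1 ∧ (1 - δ) * K < ‖A x₀‖ ^ 2 - ‖A' x₀‖ ^ 2) :
    ∃ c : X →L[ℝ] X →L[ℝ] ℝ, (∀ u v, c u v = c v u) ∧ ‖c‖ < ε ∧ ∃ x : X, ‖x‖ ≤ 1 ∧
      ∀ y : X, ‖y‖ ≤ 1 → |‖A y‖ ^ 2 - ‖A' y‖ ^ 2 - c y y| ≤ ‖A x‖ ^ 2 - ‖A' x‖ ^ 2 - c x x := by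
  obtain ⟨N, hN, hNy⟩ := squareForm ((Real.sqrt K)⁻¹ • A')
  obtain ⟨η, hη, h⟩ := forms.{u} m ‖(Real.sqrt K)⁻¹ • A‖ (ε / K) (by positivity)
  have hs : ∀ (j : ℕ) (B : X →L[ℝ] EuclideanSpace ℝ (Fin j)) (y : X),
      ‖((Real.sqrt K)⁻¹ • B) y‖ ^ 2 = K⁻¹ * ‖B y‖ ^ 2 := by
    intro j B y
    rw [_root_.smul_apply, norm_smul, mul_pow, norm_inv, inv_pow, Real.norm_eq_abs, sq_abs, Real.sq_sqrt hK.le]
  have hform : ∀ y, form ((Real.sqrt K)⁻¹ • A) N y = K⁻¹ * (‖A y‖ ^ 2 - ‖A' y‖ ^ 2) := by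
    intro y
    rw [form, hNy, hs, hs]
    ring
  obtain ⟨x₀, hx₀, hx₀2⟩ := hsup η hη
  obtain ⟨x, hx, ⟨c, ⟨hc1, hc2, hc3⟩, hx1, hatt⟩, -⟩ := h X ((Real.sqrt K)⁻¹ • A) N le_rfl hN (by
    intro y hy
    rw [hform, abs_mul, abs_of_pos (inv_pos.2 hK), inv_mul_le_iff₀ hK, mul_one]
    exact hb y hy) x₀ hx₀ (by
    rw [hform, lt_inv_mul_iff₀ hK]
    linarith)
  have hcK : ∀ u v, (K • c) u v = K * c u v := fun u v => rfl
  have hq : ∀ y, ‖A y‖ ^ 2 - ‖A' y‖ ^ 2 - (K • c) y y = K * (form ((Real.sqrt K)⁻¹ • A) N y - c y y) := by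
    intro y
    rw [hcK, hform, mul_sub, ← mul_assoc, mul_inv_cancel₀ hK.ne', one_mul]
  refine ⟨K • c, fun u v => ?_, ?_, x, hx1.le, fun y hy => ?_⟩
  · rw [hcK, hcK, hc1]
  · calc ‖K • c‖ ≤ K * ‖c‖ := norm_form_le c _ K hK.le fun u v => by
          rw [hcK, abs_mul, abs_of_pos hK]
      _ < K * (ε / K) := mul_lt_mul_of_pos_left hc2 hK
      _ = ε := by field_simp
  · rw [hq, hq, abs_mul, abs_of_pos hK]
    exact mul_le_mul_of_nonneg_left (hatt y hy) hK.le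

/-- Every continuous quadratic form of finite type, `‖T y‖² - ‖T' y‖²` with `T`, `T'` of finite rank, is a limit of
continuous quadratic forms which attain their norm. -/
theorem finiteType {X : Type u} [NormedAddCommGroup X] [NormedSpace ℝ X] [CompleteSpace X] {d d' : ℕ}
    (T : X →L[ℝ] EuclideanSpace ℝ (Fin d)) (T' : X →L[ℝ] EuclideanSpace ℝ (Fin d')) (ε : ℝ) (hε : 0 < ε) :
    ∃ c : X →L[ℝ] X →L[ℝ] ℝ, (∀ u v, c u v = c v u) ∧ ‖c‖ < ε ∧ ∃ x : X, ‖x‖ ≤ 1 ∧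
      ∀ y : X, ‖y‖ ≤ 1 → |‖T y‖ ^ 2 - ‖T' y‖ ^ 2 - c y y| ≤ |‖T x‖ ^ 2 - ‖T' x‖ ^ 2 - c x x| := by
  obtain ⟨V, hV⟩ : ∃ V : Set ℝ, V = {r | ∃ y : X, ‖y‖ ≤ 1 ∧ r = |‖T y‖ ^ 2 - ‖T' y‖ ^ 2|} := ⟨_, rfl⟩
  have hbd : BddAbove V := by
    refine ⟨‖T‖ ^ 2 + ‖T'‖ ^ 2, ?_⟩
    rw [hV]
    rintro r ⟨y, hy, rfl⟩
    have h1 : ‖T y‖ ≤ ‖T‖ := (T.le_opNorm y).trans (mul_le_of_le_one_right (norm_nonneg _) hy)
    have h2 : ‖T' y‖ ≤ ‖T'‖ := (T'.le_opNorm y).trans (mul_le_of_le_one_right (norm_nonneg _) hy)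
    have h3 : ‖T y‖ ^ 2 ≤ ‖T‖ ^ 2 := pow_le_pow_left₀ (norm_nonneg _) h1 2
    have h4 : ‖T' y‖ ^ 2 ≤ ‖T'‖ ^ 2 := pow_le_pow_left₀ (norm_nonneg _) h2 2
    rw [abs_le]
    constructor <;> nlinarith [sq_nonneg ‖T y‖, sq_nonneg ‖T' y‖, sq_nonneg ‖T‖, sq_nonneg ‖T'‖]
  have hne : V.Nonempty := ⟨_, by rw [hV]; exact ⟨0, by simp, rfl⟩⟩
  have hle : ∀ y : X, ‖y‖ ≤ 1 → |‖T y‖ ^ 2 - ‖T' y‖ ^ 2| ≤ sSup V := fun y hy =>
    le_csSup hbd (by rw [hV]; exact ⟨y, hy, rfl⟩)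
  have hK0 : 0 ≤ sSup V := (abs_nonneg _).trans (hle 0 (by simp))
  rcases hK0.eq_or_lt with hK | hK
  · refine ⟨0, fun _ _ => rfl, ?_, 0, by simp, fun y hy => ?_⟩
    · have h0 := norm_form_le (0 : X →L[ℝ] X →L[ℝ] ℝ) 0 0 le_rfl fun u v => by simp
      linarith
    have h1 := hle y hy
    rw [← hK] at h1
    have h2 : |‖T y‖ ^ 2 - ‖T' y‖ ^ 2 - (0 : X →L[ℝ] X →L[ℝ] ℝ) y y| = |‖T y‖ ^ 2 - ‖T' y‖ ^ 2| := by simp
    rw [h2]
    exact h1.trans (abs_nonneg _)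
  by_cases hpos : ∀ δ : ℝ, 0 < δ → ∃ x₀ : X, ‖x₀‖ ≤ 1 ∧ (1 - δ) * sSup V < ‖T x₀‖ ^ 2 - ‖T' x₀‖ ^ 2
  · obtain ⟨c, hc1, hc2, x, hx, h⟩ := finiteType_aux T T' ε hε _ hK hle hpos
    exact ⟨c, hc1, hc2, x, hx, fun y hy => (h y hy).trans (le_abs_self _)⟩
  by_cases hneg : ∀ δ : ℝ, 0 < δ → ∃ x₀ : X, ‖x₀‖ ≤ 1 ∧ (1 - δ) * sSup V < ‖T' x₀‖ ^ 2 - ‖T x₀‖ ^ 2
  · obtain ⟨c, hc1, hc2, x, hx, h⟩ := finiteType_aux T' T ε hε _ hK
      (fun y hy => by rw [abs_sub_comm]; exact hle y hy) hneg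
    have hcn : ‖-c‖ ≤ 1 * ‖c‖ := norm_form_le c _ 1 zero_le_one fun u v => by
      change |-(c u v)| ≤ _
      rw [abs_neg, one_mul]
    refine ⟨-c, fun u v => ?_, by linarith, x, hx, fun y hy => ?_⟩
    · change -(c u v) = -(c v u)
      rw [hc1]
    · have e1 : ∀ z : X, ‖T z‖ ^ 2 - ‖T' z‖ ^ 2 - (-c) z z = -(‖T' z‖ ^ 2 - ‖T z‖ ^ 2 - c z z) := by
        intro z
        change ‖T z‖ ^ 2 - ‖T' z‖ ^ 2 - -(c z z) = _
        ring
      rw [e1, e1, abs_neg, abs_neg]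
      exact (h y hy).trans (le_abs_self _)
  exfalso
  push Not at hpos hneg
  obtain ⟨δ₁, hδ₁, h1⟩ := hpos
  obtain ⟨δ₂, hδ₂, h2⟩ := hneg
  obtain ⟨δ, hδ0, hδa, hδb⟩ : ∃ δ : ℝ, 0 < δ ∧ δ ≤ δ₁ ∧ δ ≤ δ₂ :=
    ⟨min δ₁ δ₂, lt_min hδ₁ hδ₂, min_le_left _ _, min_le_right _ _⟩
  have h3 : sSup V ≤ (1 - δ) * sSup V := by
    refine csSup_le hne ?_
    intro r hr
    rw [hV] at hr
    obtain ⟨y, hy, rfl⟩ := hr
    have e1 := h1 y hy
    have e2 := h2 y hy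
    have e3 : (1 - δ₁) * sSup V ≤ (1 - δ) * sSup V := mul_le_mul_of_nonneg_right (by linarith) hK.le
    have e4 : (1 - δ₂) * sSup V ≤ (1 - δ) * sSup V := mul_le_mul_of_nonneg_right (by linarith) hK.le
    rw [abs_le]
    constructor <;> linarith
  nlinarith

end Pool.Agent.Results.MP_b6bd4b_an.QuadraticFormsAttain
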