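import Mathlib

/-!
# Domain spaces which suffice for property B of a finite-dimensional space

Outline. (i) `exists_subspace`: a separable closed subspace `Z` of `X` such that all operators from `Z` to the
finite-dimensional space `Y` extend to `X` with the same norm and not further from `T : X → Y`; so separable `X`
suffice. (ii) `summand`: an `ℓ_1`-summand of a space with dense norm attaining operators has this property.
(iii) `renorm`: if `X ⊆ V` and `V` gets the norm with the unit ball `conv (B_X ∪ c⁻¹ B_V)`, then an operator near a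
fixed extension `g` of `T`, `‖g‖ < c ‖T‖`, attains its norm at a point of `X`; only this one operator `g` is used.
(iv) For `V = C(Δ) × Y` the embedding `x ↦ (φ x, T x / ‖T‖)` is isometric and `g (f, y) = ‖T‖ y` extends `T`.
-/

set_option autoImplicit false

namespace Pool.Agent.Results.MP_b6bd4b_an.RenormingsSuffice

open Filter Topology

section closing

variable {X Y : Type*} [NormedAddCommGroup X] [NormedSpace ℝ X] [NormedAddCommGroup Y]
  [NormedSpace ℝ Y]

/-- `D` reflects the finite subsets of `X`. -/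
def Good (T : X →L[ℝ] Y) (D : Set X) : Prop :=
  ∀ (E : Finset X) (ε : ℝ), 0 < ε → ∃ τ : X → X, (∀ x, τ x ∈ D) ∧
    (∀ x ∈ E, ‖τ x‖ ≤ ‖x‖ + ε) ∧ (∀ x ∈ E, ‖T (τ x) - T x‖ ≤ ε) ∧
    (∀ x ∈ E, ∀ y ∈ E, ∀ w ∈ E, ‖τ x + τ y - τ w‖ ≤ ‖x + y - w‖ + ε) ∧
    ∀ x ∈ E, x ∈ D → ‖τ x - x‖ ≤ ε

theorem dense_tuple {α M : Type*} [PseudoMetricSpace M] [SecondCountableTopology M] (f : α → M) :
    ∃ C : Set α, C.Countable ∧ ∀ a, ∀ ε > 0, ∃ c ∈ C, dist (f c) (f a) < ε := by
  obtain ⟨t, hts, htc, ht⟩ :=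
    (TopologicalSpace.IsSeparable.of_separableSpace (Set.range f)).exists_countable_dense_subset
  have h : ∀ m : t, ∃ a, f a = m := fun m => hts m.2
  choose g hg using h
  have := htc.to_subtype
  refine ⟨Set.range g, Set.countable_range g, fun a ε hε => ?_⟩
  have h1 := ht (Set.mem_range_self a)
  rw [Metric.mem_closure_iff] at h1
  obtain ⟨m, hm, hd⟩ := h1 ε hε
  exact ⟨g ⟨m, hm⟩, ⟨_, rfl⟩, by rw [hg, dist_comm]; exact hd⟩

/-- the data of a tuple -/
noncomputable def Phi (T : X →L[ℝ] Y) {k m : ℕ} (d : Fin m → X) (x : Fin k → X) :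
    (Fin k → ℝ) × (Fin k → Y) × (Fin k → Fin k → Fin k → ℝ) × (Fin k → Fin m → ℝ) :=
  (fun i => ‖x i‖, fun i => T (x i), fun i j l => ‖x i + x j - x l‖, fun i j => ‖x i - d j‖)

theorem step [FiniteDimensional ℝ Y] (T : X →L[ℝ] Y) (D : Set X) (hD : D.Countable) :
    ∃ D' : Set X, D'.Countable ∧ D ⊆ D' ∧ ∀ (k m : ℕ) (d : Fin m → X) (x : Fin k → X),
      (∀ j, d j ∈ D) → ∀ ε > 0, ∃ z : Fin k → X, (∀ i, z i ∈ D') ∧
        dist (Phi T d z) (Phi T d x) < ε := by
  have := hD.to_subtype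
  have : ProperSpace Y := FiniteDimensional.proper_real Y
  have h : ∀ p : (Σ _ : ℕ, Σ m : ℕ, (Fin m → D)), ∃ C : Set (Fin p.1 → X), C.Countable ∧
      ∀ a, ∀ ε > 0, ∃ c ∈ C, dist (Phi T (fun j => (p.2.2 j : X)) c)
        (Phi T (fun j => (p.2.2 j : X)) a) < ε := fun p =>
    dense_tuple (Phi T (k := p.1) (fun j => (p.2.2 j : X)))
  choose C hC1 hC2 using h
  refine ⟨D ∪ ⋃ p, ⋃ c ∈ C p, Set.range c, ?_, Set.subset_union_left, ?_⟩
  · refine hD.union (Set.countable_iUnion fun p => (hC1 p).biUnion fun c _ => ?_)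
    exact Set.countable_range c
  · intro k m d x hd ε hε
    obtain ⟨c, hc, h1⟩ := hC2 ⟨k, m, fun j => ⟨d j, hd j⟩⟩ x ε hε
    refine ⟨c, fun i => Or.inr ?_, h1⟩
    exact Set.mem_iUnion.2 ⟨⟨k, m, fun j => ⟨d j, hd j⟩⟩, Set.mem_biUnion hc ⟨i, rfl⟩⟩

theorem exists_good [FiniteDimensional ℝ Y] (T : X →L[ℝ] Y) (D₀ : Set X) (hD₀ : D₀.Countable) :
    ∃ D : Set X, D.Countable ∧ D₀ ⊆ D ∧ Good T D := by
  classical
  choose! F hF1 hF2 hF3 using (fun (D : Set X) (hD : D.Countable) => step T D hD)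
  let D : ℕ → Set X := fun n => F^[n] (insert 0 D₀)
  have hDs : ∀ n, D (n + 1) = F (D n) := fun n => Function.iterate_succ_apply' F n _
  have hDc : ∀ n, (D n).Countable := by
    intro n
    induction n with
    | zero => exact hD₀.insert 0
    | succ n ih => rw [hDs]; exact hF1 _ ih
  have hmono : Monotone D := monotone_nat_of_le_succ fun n => by
    rw [hDs]; exact hF2 _ (hDc n)
  refine ⟨⋃ n, D n, Set.countable_iUnion hDc, ?_, ?_⟩
  · intro x hx
    exact Set.mem_iUnion.2 ⟨0, Set.mem_insert_of_mem _ hx⟩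
  intro E ε hε
  have h0 : (0 : X) ∈ ⋃ n, D n := Set.mem_iUnion.2 ⟨0, Set.mem_insert _ _⟩
  set G := E.filter (fun y => y ∈ ⋃ n, D n) with hG
  have hn : ∀ y ∈ G, ∃ n, y ∈ D n := fun y hy => Set.mem_iUnion.1 (Finset.mem_filter.1 hy).2
  choose! N hN using hn
  obtain ⟨z, hz1, hz2⟩ := hF3 (D (G.sup N)) (hDc _) E.card G.card
    (fun j => (G.equivFin.symm j : X)) (fun j => (E.equivFin.symm j : X))
    (fun j => hmono (Finset.le_sup (f := N) (G.equivFin.symm j).2) (hN _ (G.equivFin.symm j).2))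
    ε hε
  rw [← hDs] at hz1
  rw [Prod.dist_eq, Prod.dist_eq, Prod.dist_eq, max_lt_iff, max_lt_iff, max_lt_iff] at hz2
  obtain ⟨e1, e2, e3, e4⟩ := hz2
  have e1' : ∀ i, dist ‖z i‖ ‖((E.equivFin.symm i : E) : X)‖ < ε := fun i =>
    (dist_le_pi_dist (Phi T (fun j => (G.equivFin.symm j : X)) z).1
      (Phi T (fun j => (G.equivFin.symm j : X)) (fun j => (E.equivFin.symm j : X))).1 i).trans_lt e1
  have e2' : ∀ i, dist (T (z i)) (T ((E.equivFin.symm i : E) : X)) < ε := fun i =>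
    (dist_le_pi_dist (Phi T (fun j => (G.equivFin.symm j : X)) z).2.1
      (Phi T (fun j => (G.equivFin.symm j : X)) (fun j => (E.equivFin.symm j : X))).2.1 i).trans_lt
      e2
  have e3' : ∀ i j l, dist ‖z i + z j - z l‖ ‖((E.equivFin.symm i : E) : X) +
      ((E.equivFin.symm j : E) : X) - ((E.equivFin.symm l : E) : X)‖ < ε := by
    intro i j l
    have a1 := dist_le_pi_dist (Phi T (fun j => (G.equivFin.symm j : X)) z).2.2.1
      (Phi T (fun j => (G.equivFin.symm j : X)) (fun j => (E.equivFin.symm j : X))).2.2.1 i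
    have a2 := dist_le_pi_dist ((Phi T (fun j => (G.equivFin.symm j : X)) z).2.2.1 i)
      ((Phi T (fun j => (G.equivFin.symm j : X)) (fun j => (E.equivFin.symm j : X))).2.2.1 i) j
    have a3 := dist_le_pi_dist ((Phi T (fun j => (G.equivFin.symm j : X)) z).2.2.1 i j)
      ((Phi T (fun j => (G.equivFin.symm j : X)) (fun j => (E.equivFin.symm j : X))).2.2.1 i j) l
    exact ((a3.trans a2).trans a1).trans_lt e3
  have e4' : ∀ i j, dist ‖z i - ((G.equivFin.symm j : G) : X)‖ ‖((E.equivFin.symm i : E) : X) -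
      ((G.equivFin.symm j : G) : X)‖ < ε := by
    intro i j
    have a1 := dist_le_pi_dist (Phi T (fun j => (G.equivFin.symm j : X)) z).2.2.2
      (Phi T (fun j => (G.equivFin.symm j : X)) (fun j => (E.equivFin.symm j : X))).2.2.2 i
    have a2 := dist_le_pi_dist ((Phi T (fun j => (G.equivFin.symm j : X)) z).2.2.2 i)
      ((Phi T (fun j => (G.equivFin.symm j : X)) (fun j => (E.equivFin.symm j : X))).2.2.2 i) j
    exact (a2.trans a1).trans_lt e4
  refine ⟨fun x => if h : x ∈ E then z (E.equivFin ⟨x, h⟩) else 0, ?_, ?_, ?_, ?_, ?_⟩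
  · intro x
    by_cases h : x ∈ E
    · simp only [h, dif_pos]
      exact Set.mem_iUnion.2 ⟨_, hz1 _⟩
    · simp only [h, dif_neg, not_false_iff]
      exact h0
  · intro x hx
    have := e1' (E.equivFin ⟨x, hx⟩)
    simp only [Equiv.symm_apply_apply, Real.dist_eq] at this
    simp only [hx, dif_pos]
    linarith [(abs_lt.1 this).2]
  · intro x hx
    have := e2' (E.equivFin ⟨x, hx⟩)
    simp only [Equiv.symm_apply_apply, dist_eq_norm] at this
    simp only [hx, dif_pos]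
    exact this.le
  · intro x hx y hy w hw
    have := e3' (E.equivFin ⟨x, hx⟩) (E.equivFin ⟨y, hy⟩) (E.equivFin ⟨w, hw⟩)
    simp only [Equiv.symm_apply_apply, Real.dist_eq] at this
    simp only [hx, hy, hw, dif_pos]
    linarith [(abs_lt.1 this).2]
  · intro x hx hxD
    have hxG : x ∈ G := Finset.mem_filter.2 ⟨hx, hxD⟩
    have := e4' (E.equivFin ⟨x, hx⟩) (G.equivFin ⟨x, hxG⟩)
    simp only [Equiv.symm_apply_apply, Real.dist_eq, sub_self, norm_zero, sub_zero] at this
    simp only [hx, dif_pos]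
    rw [abs_of_nonneg (norm_nonneg _)] at this
    exact this.le

end closing

section extension

variable {X Y : Type*} [NormedAddCommGroup X] [NormedSpace ℝ X] [NormedAddCommGroup Y]
  [NormedSpace ℝ Y]

theorem extend [FiniteDimensional ℝ Y] (T : X →L[ℝ] Y) (D : Set X) (hD : Good T D)
    (Z : Submodule ℝ X) (hDZ : ∀ x ∈ D, x ∈ Z)
    (hZ : ∀ z ∈ Z, z ∈ closure (Submodule.span ℝ D : Set X)) (S₀ : Z →L[ℝ] Y) :
    ∃ S : X →L[ℝ] Y, (∀ z : Z, S z = S₀ z) ∧ ‖S‖ ≤ ‖S₀‖ ∧
      ‖S - T‖ ≤ ‖S₀ - T.comp Z.subtypeL‖ := by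
  classical
  have : ProperSpace Y := FiniteDimensional.proper_real Y
  have hpos : ∀ n : ℕ, (0 : ℝ) < 1 / ((n : ℝ) + 1) := fun n => by positivity
  choose τ t1 t2 t3 t4 t5 using fun i : Finset X × ℕ => hD i.1 (1 / ((i.2 : ℝ) + 1)) (hpos i.2)
  let U : Ultrafilter (Finset X × ℕ) := Ultrafilter.of atTop
  have hU : (U : Filter (Finset X × ℕ)) ≤ atTop := Ultrafilter.of_le _
  have hev : ∀ E : Finset X, ∀ᶠ i in (U : Filter (Finset X × ℕ)), E ⊆ i.1 := fun E =>
    hU ((eventually_ge_atTop (E, 0)).mono fun i hi => hi.1)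
  have he : Tendsto (fun i : Finset X × ℕ => 1 / ((i.2 : ℝ) + 1)) U (𝓝 0) := by
    have h1 : Tendsto (fun i : Finset X × ℕ => i.2) atTop atTop := by
      rw [← prod_atTop_atTop_eq]
      exact tendsto_snd
    exact ((tendsto_one_div_add_atTop_nhds_zero_nat (𝕜 := ℝ)).comp h1).mono_left hU
  let g : Finset X × ℕ → X → Z := fun i x => ⟨τ i x, hDZ _ (t1 i x)⟩
  have hlim : ∀ x, ∃ y : Y, Tendsto (fun i => S₀ (g i x)) U (𝓝 y) := by
    intro x
    have h1 : ∀ᶠ i in (U : Filter (Finset X × ℕ)),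
        S₀ (g i x) ∈ Metric.closedBall (0 : Y) (‖S₀‖ * (‖x‖ + 1)) := by
      refine (hev {x}).mono fun i hi => ?_
      have h2 := t2 i x (hi (Finset.mem_singleton_self x))
      have h3 : 1 / ((i.2 : ℝ) + 1) ≤ 1 := by
        rw [div_le_one (by positivity)]
        linarith [Nat.cast_nonneg (α := ℝ) i.2]
      rw [mem_closedBall_zero_iff]
      refine (S₀.le_opNorm _).trans (mul_le_mul_of_nonneg_left ?_ (norm_nonneg _))
      change ‖τ i x‖ ≤ _
      linarith
    obtain ⟨y, -, hy⟩ := (isCompact_closedBall (0 : Y) (‖S₀‖ * (‖x‖ + 1))).ultrafilter_le_nhds'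
      (U.map (fun i => S₀ (g i x))) h1
    exact ⟨y, hy⟩
  choose s hs using hlim
  have hadd : ∀ x y, s (x + y) = s x + s y := by
    intro x y
    have h1 : Tendsto (fun i => S₀ (g i x) + S₀ (g i y) - S₀ (g i (x + y))) U
        (𝓝 (s x + s y - s (x + y))) := ((hs x).add (hs y)).sub (hs (x + y))
    have h2 : Tendsto (fun i => S₀ (g i x) + S₀ (g i y) - S₀ (g i (x + y))) U (𝓝 0) := by
      apply squeeze_zero_norm' (a := fun i : Finset X × ℕ => ‖S₀‖ * (1 / ((i.2 : ℝ) + 1)))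
      · refine (hev {x, y, x + y}).mono fun i hi => ?_
        have h3 := t4 i x (hi (by simp)) y (hi (by simp)) (x + y) (hi (by simp))
        rw [sub_self, norm_zero, zero_add] at h3
        rw [← map_add, ← map_sub]
        refine (S₀.le_opNorm _).trans (mul_le_mul_of_nonneg_left ?_ (norm_nonneg _))
        exact h3
      · simpa using he.const_mul ‖S₀‖
    have h3 := tendsto_nhds_unique h1 h2
    exact (sub_eq_zero.1 h3).symm
  have hnorm : ∀ x, ‖s x‖ ≤ ‖S₀‖ * ‖x‖ := by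
    intro x
    have h1 : Tendsto (fun i : Finset X × ℕ => ‖S₀‖ * (‖x‖ + 1 / ((i.2 : ℝ) + 1))) U
        (𝓝 (‖S₀‖ * (‖x‖ + 0))) := (he.const_add ‖x‖).const_mul ‖S₀‖
    rw [add_zero] at h1
    refine le_of_tendsto_of_tendsto (hs x).norm h1 ((hev {x}).mono fun i hi => ?_)
    refine (S₀.le_opNorm _).trans (mul_le_mul_of_nonneg_left ?_ (norm_nonneg _))
    exact t2 i x (hi (Finset.mem_singleton_self x))
  have hdist : ∀ x, ‖s x - T x‖ ≤ ‖S₀ - T.comp Z.subtypeL‖ * ‖x‖ := by
    intro x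
    have h1 : Tendsto (fun i : Finset X × ℕ => ‖S₀ - T.comp Z.subtypeL‖ *
        (‖x‖ + 1 / ((i.2 : ℝ) + 1)) + 1 / ((i.2 : ℝ) + 1)) U
        (𝓝 (‖S₀ - T.comp Z.subtypeL‖ * (‖x‖ + 0) + 0)) :=
      ((he.const_add ‖x‖).const_mul _).add he
    rw [add_zero, add_zero] at h1
    refine le_of_tendsto_of_tendsto ((hs x).sub_const (T x)).norm h1 ((hev {x}).mono fun i hi => ?_)
    have hx := hi (Finset.mem_singleton_self x)
    have e : S₀ (g i x) - T x = (S₀ - T.comp Z.subtypeL) (g i x) + (T (τ i x) - T x) := by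
      simp [g]
    change ‖S₀ (g i x) - T x‖ ≤ _
    rw [e]
    refine (norm_add_le _ _).trans (add_le_add ?_ (t3 i x hx))
    refine (ContinuousLinearMap.le_opNorm _ _).trans
      (mul_le_mul_of_nonneg_left ?_ (norm_nonneg _))
    exact t2 i x hx
  have hsD : ∀ x (hx : x ∈ D), s x = S₀ ⟨x, hDZ x hx⟩ := by
    intro x hx
    refine tendsto_nhds_unique (hs x) ?_
    rw [tendsto_iff_norm_sub_tendsto_zero]
    apply squeeze_zero' (g := fun i : Finset X × ℕ => ‖S₀‖ * (1 / ((i.2 : ℝ) + 1)))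
    · exact Eventually.of_forall fun i => norm_nonneg _
    · refine (hev {x}).mono fun i hi => ?_
      rw [← map_sub]
      refine (S₀.le_opNorm _).trans (mul_le_mul_of_nonneg_left ?_ (norm_nonneg _))
      exact t5 i x (hi (Finset.mem_singleton_self x)) hx
    · simpa using he.const_mul ‖S₀‖
  let f : X →+ Y := AddMonoidHom.mk' s hadd
  have hf : Continuous f := AddMonoidHomClass.continuous_of_bound f ‖S₀‖ hnorm
  let S : X →L[ℝ] Y := f.toRealLinearMap hf
  have hSs : ∀ x, S x = s x := fun x => rfl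
  refine ⟨S, ?_, S.opNorm_le_bound (ContinuousLinearMap.opNorm_nonneg _) hnorm,
    ContinuousLinearMap.opNorm_le_bound _ (ContinuousLinearMap.opNorm_nonneg _) hdist⟩
  -- agreement on Z
  have hspan : ∀ x (hx : x ∈ Submodule.span ℝ D), S x =
      S₀ ⟨x, (Submodule.span_le.2 hDZ) hx⟩ := by
    intro x hx
    induction hx using Submodule.span_induction with
    | mem x hx => exact hsD x hx
    | zero => rw [map_zero]; exact (map_zero S₀).symm
    | add x y hx hy h1 h2 =>
      rw [map_add, h1, h2, ← map_add]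
      rfl
    | smul a x hx h1 =>
      rw [map_smul, h1, ← map_smul]
      rfl
  intro z
  have hz := hZ z z.2
  rw [mem_closure_iff_seq_limit] at hz
  obtain ⟨u, hu, hlimu⟩ := hz
  have h1 : Tendsto (fun n => S (u n)) atTop (𝓝 (S z)) := (S.continuous.tendsto _).comp hlimu
  have h2 : Tendsto (fun n => S₀ ⟨u n, (Submodule.span_le.2 hDZ) (hu n)⟩) atTop (𝓝 (S₀ z)) := by
    refine (S₀.continuous.tendsto _).comp ?_
    rw [tendsto_subtype_rng]
    exact hlimu
  exact tendsto_nhds_unique h1 (h2.congr fun n => (hspan _ (hu n)).symm)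

/-- Every operator into a finite-dimensional space has a separable closed subspace of its domain, containing a
given countable set, from which all operators extend with the same norm and without moving away. -/
theorem exists_subspace [FiniteDimensional ℝ Y] (T : X →L[ℝ] Y) (D₀ : Set X)
    (hD₀ : D₀.Countable) : ∃ Z : Submodule ℝ X, IsClosed (Z : Set X) ∧
      TopologicalSpace.IsSeparable (Z : Set X) ∧ D₀ ⊆ Z ∧ ∀ S₀ : Z →L[ℝ] Y,
      ∃ S : X →L[ℝ] Y, (∀ z : Z, S z = S₀ z) ∧ ‖S‖ ≤ ‖S₀‖ ∧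
        ‖S - T‖ ≤ ‖S₀ - T.comp Z.subtypeL‖ := by
  obtain ⟨D, hDc, hD₀D, hD⟩ := exists_good T D₀ hD₀
  refine ⟨(Submodule.span ℝ D).topologicalClosure, Submodule.isClosed_topologicalClosure _,
    ?_, ?_, ?_⟩
  · rw [Submodule.topologicalClosure_coe]
    exact (hDc.isSeparable.span (R := ℝ)).closure
  · exact hD₀D.trans (Submodule.subset_span.trans (Submodule.le_topologicalClosure _))
  · intro S₀
    exact extend T D hD _ (fun x hx => Submodule.le_topologicalClosure _
      (Submodule.subset_span hx)) (fun z hz => hz) S₀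

end extension

/-- the norm attaining operators -/
def NA (X Y : Type*) [NormedAddCommGroup X] [NormedSpace ℝ X] [NormedAddCommGroup Y]
    [NormedSpace ℝ Y] : Set (X →L[ℝ] Y) := {T | ∃ x : X, ‖x‖ ≤ 1 ∧ ‖T x‖ = ‖T‖}

section tools

variable {X Y W : Type*} [NormedAddCommGroup X] [NormedSpace ℝ X] [NormedAddCommGroup Y]
  [NormedSpace ℝ Y] [NormedAddCommGroup W] [NormedSpace ℝ W]

theorem separable [CompleteSpace X] [FiniteDimensional ℝ Y]
    (h : ∀ Z : Submodule ℝ X, IsClosed (Z : Set X) → TopologicalSpace.IsSeparable (Z : Set X) →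
      Dense (NA Z Y)) : Dense (NA X Y) := by
  intro T
  rw [Metric.mem_closure_iff]
  intro ε hε
  obtain ⟨Z, hZ1, hZ2, -, hZ3⟩ := exists_subspace T ∅ Set.countable_empty
  obtain ⟨S₀, ⟨z, hz1, hz2⟩, hS₀⟩ := Metric.mem_closure_iff.1 (h Z hZ1 hZ2 (T.comp Z.subtypeL)) ε hε
  obtain ⟨S, hS1, hS2, hS3⟩ := hZ3 S₀
  refine ⟨S, ⟨z, hz1, ?_⟩, ?_⟩
  · apply le_antisymm
    · exact (S.le_opNorm _).trans (mul_le_of_le_one_right (norm_nonneg _) hz1)
    · rw [hS1, hz2]
      exact hS2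
  · rw [dist_eq_norm, norm_sub_rev]
    rw [dist_eq_norm, norm_sub_rev] at hS₀
    exact hS3.trans_lt hS₀

theorem summand (J : X →L[ℝ] W) (P : W →L[ℝ] X) (hJ : ∀ z, ‖J z‖ = ‖z‖)
    (hP : ∀ w, ‖w‖ = ‖P w‖ + ‖w - J (P w)‖) (hPJ : ∀ z, P (J z) = z) (hW : Dense (NA W Y)) :
    Dense (NA X Y) := by
  intro T
  rw [Metric.mem_closure_iff]
  intro ε hε
  by_cases hT : T = 0
  · refine ⟨T, ⟨0, by simp, by rw [hT]; simp⟩, by rwa [dist_self]⟩
  have hTn : 0 < ‖T‖ := norm_pos_iff.2 hT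
  obtain ⟨S, ⟨w, hw1, hw2⟩, hS⟩ := Metric.mem_closure_iff.1 (hW (T.comp P)) (min ε (‖T‖ / 2))
    (lt_min hε (half_pos hTn))
  rw [dist_eq_norm] at hS
  obtain ⟨hS1, hS2⟩ := lt_min_iff.1 hS
  set d := ‖T.comp P - S‖ with hd
  have hJ1 : ‖J‖ ≤ 1 := J.opNorm_le_bound zero_le_one fun z => by rw [hJ, one_mul]
  have hdiff : T - S.comp J = (T.comp P - S).comp J := by
    ext z
    simp [hPJ]
  have h1 : ‖T - S.comp J‖ ≤ d := by
    rw [hdiff]
    refine (ContinuousLinearMap.opNorm_comp_le _ _).trans ?_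
    exact mul_le_of_le_one_right (norm_nonneg _) hJ1
  have h2 : ‖S.comp J‖ ≤ ‖S‖ := (ContinuousLinearMap.opNorm_comp_le _ _).trans
    (mul_le_of_le_one_right (norm_nonneg _) hJ1)
  have h3 : d < ‖S.comp J‖ := by
    have : ‖T‖ ≤ ‖T - S.comp J‖ + ‖S.comp J‖ := by
      simpa using norm_add_le (T - S.comp J) (S.comp J)
    linarith
  have h4 : ‖S (w - J (P w))‖ ≤ d * ‖w - J (P w)‖ := by
    have e : S (w - J (P w)) = -((T.comp P - S) (w - J (P w))) := by
      simp [hPJ]
    rw [e, norm_neg]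
    exact ContinuousLinearMap.le_opNorm _ _
  have h5 : ‖S w‖ ≤ ‖S.comp J (P w)‖ + ‖S (w - J (P w))‖ := by
    have e : S w = S.comp J (P w) + S (w - J (P w)) := by simp
    calc ‖S w‖ = ‖S.comp J (P w) + S (w - J (P w))‖ := by rw [← e]
      _ ≤ _ := norm_add_le _ _
  have h6 : ‖S.comp J (P w)‖ ≤ ‖S.comp J‖ * ‖P w‖ := ContinuousLinearMap.le_opNorm _ _
  have hPw := hP w
  have hb := norm_nonneg (w - J (P w))
  have ha := norm_nonneg (P w)
  have hd0 : 0 ≤ d := norm_nonneg _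
  have ha1 : 1 ≤ ‖P w‖ := by
    by_contra hcon
    push Not at hcon
    have k1 : ‖S‖ ≤ ‖S‖ * ‖P w‖ + d * (1 - ‖P w‖) := by
      have k2 : ‖S.comp J‖ * ‖P w‖ ≤ ‖S‖ * ‖P w‖ := mul_le_mul_of_nonneg_right h2 ha
      have k3 : d * ‖w - J (P w)‖ ≤ d * (1 - ‖P w‖) := mul_le_mul_of_nonneg_left (by linarith) hd0
      linarith
    have k4 : ‖S‖ * (1 - ‖P w‖) ≤ d * (1 - ‖P w‖) := by linarith
    have k5 := le_of_mul_le_mul_right k4 (by linarith)
    linarith
  have hb0 : ‖w - J (P w)‖ = 0 := le_antisymm (by linarith) hb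
  refine ⟨S.comp J, ⟨P w, by linarith, ?_⟩, ?_⟩
  · apply le_antisymm
    · exact h6.trans (mul_le_of_le_one_right (norm_nonneg _) (by linarith))
    · rw [hb0, mul_zero] at h4
      linarith
  · rw [dist_eq_norm]
    exact h1.trans_lt hS1

end tools

/-- the space `ℓ_∞` -/
abbrev L : Type := lp (fun _ : ℕ => ℝ) ⊤

theorem exists_embedding (X : Type*) [NormedAddCommGroup X] [NormedSpace ℝ X]
    [TopologicalSpace.SeparableSpace X] : Nonempty (X →ₗᵢ[ℝ] L) := by
  choose g hg1 hg2 using fun n : ℕ => exists_dual_vector'' ℝ (TopologicalSpace.denseSeq X n)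
  have hb : ∀ n x, ‖g n x‖ ≤ ‖x‖ := fun n x => by
    refine ((g n).le_opNorm x).trans ?_
    exact mul_le_of_le_one_left (norm_nonneg _) (hg1 n)
  have hm : ∀ x, Memℓp (fun n => g n x) (⊤ : ENNReal) := fun x =>
    memℓp_infty ⟨‖x‖, by rintro _ ⟨n, rfl⟩; exact hb n x⟩
  let f : X →ₗ[ℝ] L :=
    { toFun := fun x => ⟨fun n => g n x, hm x⟩
      map_add' := fun x y => by
        apply Subtype.ext
        funext n
        exact map_add (g n) x y
      map_smul' := fun c x => by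
        apply Subtype.ext
        funext n
        exact map_smul (g n) c x }
  refine ⟨⟨f, fun x => ?_⟩⟩
  apply le_antisymm
  · exact lp.norm_le_of_forall_le (norm_nonneg _) fun n => hb n x
  · apply le_of_forall_pos_le_add
    intro δ hδ
    obtain ⟨n, hn⟩ := (TopologicalSpace.denseRange_denseSeq X).exists_dist_lt x (half_pos hδ)
    rw [dist_eq_norm] at hn
    have h1 : ‖g n x‖ ≤ ‖f x‖ := lp.norm_apply_le_norm ENNReal.top_ne_zero (f x) n
    have h2 : ‖TopologicalSpace.denseSeq X n‖ ≤ ‖g n x‖ + ‖x - TopologicalSpace.denseSeq X n‖ := by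
      have e : ‖TopologicalSpace.denseSeq X n‖ =
          ‖g n x - g n (x - TopologicalSpace.denseSeq X n)‖ := by
        rw [map_sub, sub_sub_cancel, hg2]
        simp
      rw [e]
      refine (norm_sub_le _ _).trans (add_le_add le_rfl (hb n _))
    have h3 : ‖x‖ ≤ ‖x - TopologicalSpace.denseSeq X n‖ + ‖TopologicalSpace.denseSeq X n‖ := by
      simpa using norm_add_le (x - TopologicalSpace.denseSeq X n) (TopologicalSpace.denseSeq X n)
    linarith

/-- the closed subspaces of `ℓ_∞` -/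
abbrev Idx : Type := {Z : Submodule ℝ L // IsClosed (Z : Set L)}

instance (Z : Idx) : CompleteSpace Z.1 := Z.2.completeSpace_coe

/-- the `ℓ_1`-sum of all closed subspaces of `ℓ_∞` -/
abbrev TestSpace : Type := lp (fun Z : Idx => Z.1) 1

theorem of_test {Y : Type*} [NormedAddCommGroup Y] [NormedSpace ℝ Y]
    (hW : Dense (NA TestSpace Y)) (X : Type*) [NormedAddCommGroup X] [NormedSpace ℝ X]
    [CompleteSpace X] [TopologicalSpace.SeparableSpace X] : Dense (NA X Y) := by
  classical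
  obtain ⟨φ⟩ := exists_embedding X
  let i : Idx := ⟨LinearMap.range φ.toLinearMap, φ.isometry.isClosedEmbedding.isClosed_range⟩
  let e : X ≃ₗᵢ[ℝ] i.1 := φ.equivRange
  let ev : TestSpace →L[ℝ] i.1 := LinearMap.mkContinuous
    { toFun := fun w => w i
      map_add' := fun _ _ => rfl
      map_smul' := fun _ _ => rfl } 1 (fun w => by
        rw [one_mul]
        exact lp.norm_apply_le_norm one_ne_zero w i)
  let J : X →L[ℝ] TestSpace := (lp.singleContinuousLinearMap ℝ (fun Z : Idx => Z.1) 1 i).comp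
    (e.toContinuousLinearEquiv : X →L[ℝ] i.1)
  let P : TestSpace →L[ℝ] X := (e.symm.toContinuousLinearEquiv : i.1 →L[ℝ] X).comp ev
  have hJ : ∀ x, J x = lp.single 1 i (e x) := fun x => rfl
  have hPw : ∀ w, P w = e.symm (w i) := fun w => rfl
  refine summand J P ?_ ?_ ?_ hW
  · intro z
    rw [hJ, lp.norm_single one_pos, e.norm_map]
  · intro w
    have h1 := lp.norm_compl_sum_single (p := 1) (by simp) w {i}
    simp only [Finset.sum_singleton, ENNReal.toReal_one, Real.rpow_one] at h1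
    rw [hJ, hPw, e.symm.norm_map, e.apply_symm_apply, h1]
    ring
  · intro z
    rw [hJ, hPw, lp.single_apply_self, e.symm_apply_apply]

/-- a copy of `V` which gets another norm -/
def Ren (V : Type) : Type := V

instance (V : Type) [h : AddCommGroup V] : AddCommGroup (Ren V) := h

instance (V : Type) [AddCommGroup V] [h : Module ℝ V] : Module ℝ (Ren V) := h

/-- The norm of `V` whose unit ball is the closed convex hull of the unit ball of `X` (in `V` by `φ`) and a small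
multiple of the unit ball of `V`. -/
theorem exists_renorming {X : Type*} {V : Type} [NormedAddCommGroup X] [NormedSpace ℝ X]
    [NormedAddCommGroup V] [NormedSpace ℝ V] (φ : X →ₗᵢ[ℝ] V) (c : ℝ) (hc : 1 ≤ c) :
    ∃ (V' : Type) (_ : NormedAddCommGroup V') (_ : NormedSpace ℝ V') (e : V' ≃L[ℝ] V),
      ∀ w, ‖w‖ = ⨅ x : X, (‖x‖ + c * ‖e w - φ x‖) := by
  let N : V → ℝ := fun w => ⨅ x : X, (‖x‖ + c * ‖w - φ x‖)
  have hc0 : 0 ≤ c := zero_le_one.trans hc
  have hbdd : ∀ w, BddBelow (Set.range fun x : X => ‖x‖ + c * ‖w - φ x‖) := fun w =>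
    ⟨0, by rintro _ ⟨x, rfl⟩; positivity⟩
  have hle : ∀ w x, N w ≤ ‖x‖ + c * ‖w - φ x‖ := fun w x => ciInf_le (hbdd w) x
  have hex : ∀ w η, 0 < η → ∃ x, ‖x‖ + c * ‖w - φ x‖ < N w + η := fun w η hη =>
    exists_lt_of_ciInf_lt (lt_add_of_pos_right _ hη)
  have hlow : ∀ w, ‖w‖ ≤ N w := fun w => le_ciInf fun x => by
    have h1 : ‖w‖ ≤ ‖w - φ x‖ + ‖φ x‖ := by simpa using norm_add_le (w - φ x) (φ x)
    have h2 : ‖w - φ x‖ ≤ c * ‖w - φ x‖ := le_mul_of_one_le_left (norm_nonneg _) hc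
    rw [φ.norm_map] at h1
    linarith
  have hup : ∀ w, N w ≤ c * ‖w‖ := fun w => by simpa using hle w 0
  have hneg1 : ∀ w, N (-w) ≤ N w := fun w => le_ciInf fun x => by
    refine (hle (-w) (-x)).trans (le_of_eq ?_)
    have e1 : -w - φ (-x) = -(w - φ x) := by rw [map_neg]; abel
    rw [norm_neg, e1, norm_neg]
  have hsmul : ∀ (a : ℝ) (w : V), N (a • w) ≤ ‖a‖ * N w := by
    intro a w
    change N (a • w) ≤ ‖a‖ * ⨅ x : X, (‖x‖ + c * ‖w - φ x‖)
    rw [Real.mul_iInf_of_nonneg (norm_nonneg a)]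
    refine le_ciInf fun x => ?_
    refine (hle _ (a • x)).trans (le_of_eq ?_)
    have e1 : a • w - φ (a • x) = a • (w - φ x) := by rw [map_smul, smul_sub]
    rw [e1, norm_smul, norm_smul]
    ring
  let f : AddGroupNorm V :=
    { toFun := N
      map_zero' := le_antisymm (by simpa using hup 0) (by simpa using hlow 0)
      add_le' := fun w w' => by
        apply le_of_forall_pos_le_add
        intro η hη
        obtain ⟨x, hx⟩ := hex w (η / 2) (half_pos hη)
        obtain ⟨x', hx'⟩ := hex w' (η / 2) (half_pos hη)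
        have h1 := hle (w + w') (x + x')
        have h2 : ‖w + w' - φ (x + x')‖ ≤ ‖w - φ x‖ + ‖w' - φ x'‖ := by
          have e1 : w + w' - φ (x + x') = (w - φ x) + (w' - φ x') := by rw [map_add]; abel
          rw [e1]
          exact norm_add_le _ _
        have h3 := norm_add_le x x'
        have h4 := mul_le_mul_of_nonneg_left h2 hc0
        linarith
      neg' := fun w => le_antisymm (hneg1 w) (by simpa using hneg1 (-w))
      eq_zero_of_map_eq_zero' := fun w hw => norm_eq_zero.1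
        (le_antisymm ((hlow w).trans (le_of_eq hw)) (norm_nonneg _)) }
  let f' : AddGroupNorm (Ren V) := f
  let i1 : NormedAddCommGroup (Ren V) := AddGroupNorm.toNormedAddCommGroup f'
  have hN : ∀ w : Ren V, ‖w‖ = N w := fun w => rfl
  let i2 : NormedSpace ℝ (Ren V) :=
    { (inferInstance : Module ℝ (Ren V)) with
      norm_smul_le := fun a w => hsmul a w }
  let e : Ren V ≃L[ℝ] V := LinearEquiv.toContinuousLinearEquivOfBounds
    (LinearEquiv.refl ℝ V : Ren V ≃ₗ[ℝ] V) 1 c (fun w => by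
      rw [one_mul]
      exact hlow w) (fun w => hup w)
  exact ⟨Ren V, i1, i2, e, fun w => rfl⟩

theorem renorm {X Y : Type*} {V : Type} [NormedAddCommGroup X] [NormedSpace ℝ X]
    [CompleteSpace X] [NormedAddCommGroup Y] [NormedSpace ℝ Y]
    [NormedAddCommGroup V] [NormedSpace ℝ V] [CompleteSpace V] (φ : X →ₗᵢ[ℝ] V) (c : ℝ)
    (hc : 1 ≤ c) (T : X →L[ℝ] Y) (g : V →L[ℝ] Y) (hg : ∀ x, g (φ x) = T x)
    (hgc : ‖g‖ < c * ‖T‖)
    (h : ∀ (V' : Type) [NormedAddCommGroup V'] [NormedSpace ℝ V'] [CompleteSpace V']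
      (e : V' ≃L[ℝ] V), (∀ w, ‖e w‖ ≤ ‖w‖ ∧ ‖w‖ ≤ c * ‖e w‖) →
        g.comp (e : V' →L[ℝ] V) ∈ closure (NA V' Y)) :
    T ∈ closure (NA X Y) := by
  rw [Metric.mem_closure_iff]
  intro ε hε
  have hc1 : 0 < c := zero_lt_one.trans_le hc
  have hc0 : 0 ≤ c := hc1.le
  obtain ⟨V', i1, i2, e, hN⟩ := exists_renorming φ c hc
  have : CompleteSpace V' :=
    (completeSpace_congr (e := e.toLinearEquiv.toEquiv) e.isUniformEmbedding).2 inferInstance
  have hbdd : ∀ w : V', BddBelow (Set.range fun x : X => ‖x‖ + c * ‖e w - φ x‖) := fun w =>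
    ⟨0, by rintro _ ⟨x, rfl⟩; positivity⟩
  have hle : ∀ (w : V') x, ‖w‖ ≤ ‖x‖ + c * ‖e w - φ x‖ := fun w x => by
    rw [hN]; exact ciInf_le (hbdd w) x
  have hex : ∀ (w : V') η, 0 < η → ∃ x, ‖x‖ + c * ‖e w - φ x‖ < ‖w‖ + η := fun w η hη => by
    rw [hN]; exact exists_lt_of_ciInf_lt (lt_add_of_pos_right _ hη)
  have hlow : ∀ w : V', ‖e w‖ ≤ ‖w‖ := fun w => by
    rw [hN]
    refine le_ciInf fun x => ?_
    have h1 : ‖e w‖ ≤ ‖e w - φ x‖ + ‖φ x‖ := by simpa using norm_add_le (e w - φ x) (φ x)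
    have h2 : ‖e w - φ x‖ ≤ c * ‖e w - φ x‖ := le_mul_of_one_le_left (norm_nonneg _) hc
    rw [φ.norm_map] at h1
    linarith
  have hup' : ∀ w : V', ‖w‖ ≤ c * ‖e w‖ := fun w => by simpa using hle w 0
  let J : X →L[ℝ] V' := (e.symm : V →L[ℝ] V').comp φ.toContinuousLinearMap
  have heJ : ∀ x, e (J x) = φ x := fun x => e.apply_symm_apply (φ x)
  have hJ : ∀ x, ‖J x‖ = ‖x‖ := fun x => by
    apply le_antisymm
    · have := hle (J x) x
      rw [heJ, sub_self, norm_zero, mul_zero, add_zero] at this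
      exact this
    · have := hlow (J x)
      rwa [heJ, φ.norm_map] at this
  have hJ1 : ‖J‖ ≤ 1 := J.opNorm_le_bound zero_le_one fun z => by rw [hJ, one_mul]
  have hup : ∀ v : V, ‖e.symm v‖ ≤ c * ‖v‖ := fun v => by
    simpa using hup' (e.symm v)
  set T' : V' →L[ℝ] Y := g.comp (e : V' →L[ℝ] V) with hT'
  set κ : ℝ := ‖T‖ - ‖g‖ / c with hκ
  have hκ0 : 0 < κ := by
    rw [hκ, sub_pos, div_lt_iff₀ hc1, mul_comm]
    exact hgc
  have hκT : κ ≤ ‖T‖ := by
    have : 0 ≤ ‖g‖ / c := by positivity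
    linarith
  obtain ⟨S, ⟨w, hw1, hw2⟩, hS⟩ := Metric.mem_closure_iff.1
    (h V' e fun w => ⟨hlow w, hup' w⟩) (min ε (κ / 4)) (lt_min hε (by positivity))
  rw [dist_eq_norm] at hS
  obtain ⟨hS1, hS2⟩ := lt_min_iff.1 hS
  have hdiff : T - S.comp J = (T' - S).comp J := by
    ext x
    simp only [sub_apply, ContinuousLinearMap.comp_apply, hT']
    rw [← hg x, ← heJ x]
    rfl
  have h1 : ‖T - S.comp J‖ ≤ ‖T' - S‖ := by
    rw [hdiff]
    refine (ContinuousLinearMap.opNorm_comp_le _ _).trans ?_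
    exact mul_le_of_le_one_right (norm_nonneg _) hJ1
  have h2 : ‖S.comp J‖ ≤ ‖S‖ := (ContinuousLinearMap.opNorm_comp_le _ _).trans
    (mul_le_of_le_one_right (norm_nonneg _) hJ1)
  set a := ‖S.comp J‖ with ha
  have h3 : ‖T‖ - κ / 4 < a := by
    have : ‖T‖ ≤ ‖T - S.comp J‖ + ‖S.comp J‖ := by
      simpa using norm_add_le (T - S.comp J) (S.comp J)
    linarith
  have ha0 : 0 < a := by linarith
  set b := ‖T‖ - κ + κ / 4 with hb
  have hbc : b * c = ‖g‖ + κ / 4 * c := by
    rw [hb, hκ]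
    field_simp
    ring
  have hab : κ / 2 ≤ a - b := by linarith
  have h4 : ∀ v : V, ‖S (e.symm v)‖ ≤ c * ‖v‖ * b := by
    intro v
    have k1 : S (e.symm v) = g v - (T' - S) (e.symm v) := by
      simp [hT']
    have k2 : ‖(T' - S) (e.symm v)‖ ≤ κ / 4 * (c * ‖v‖) :=
      (ContinuousLinearMap.le_opNorm _ _).trans
        (mul_le_mul hS2.le (hup v) (norm_nonneg _) (by positivity))
    have k3 : ‖g v‖ ≤ ‖g‖ * ‖v‖ := g.le_opNorm v
    rw [k1]
    have k5 := norm_sub_le (g v) ((T' - S) (e.symm v))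
    have k6 : c * ‖v‖ * b = ‖g‖ * ‖v‖ + κ / 4 * (c * ‖v‖) := by
      calc c * ‖v‖ * b = (b * c) * ‖v‖ := by ring
        _ = _ := by rw [hbc]; ring
    rw [k6]
    linarith
  have h5 : ∀ x, a ≤ a * ‖x‖ + c * ‖e w - φ x‖ * b := by
    intro x
    have k1 : S w = S.comp J x + S (e.symm (e w - φ x)) := by
      have : w = J x + e.symm (e w - φ x) := by
        apply e.injective
        rw [map_add, heJ, e.apply_symm_apply, add_sub_cancel]
      conv_lhs => rw [this]
      rw [map_add]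
      rfl
    have k2 : a ≤ ‖S w‖ := by rw [hw2]; exact h2
    rw [k1] at k2
    exact k2.trans ((norm_add_le _ _).trans (add_le_add (ContinuousLinearMap.le_opNorm _ _) (h4 _)))
  have hcl : e w ∈ closure (Set.range φ) := by
    rw [Metric.mem_closure_iff]
    intro ρ hρ
    obtain ⟨x, hx⟩ := hex w (ρ * κ / (4 * a)) (by positivity)
    refine ⟨φ x, ⟨x, rfl⟩, ?_⟩
    rw [dist_eq_norm]
    have k1 := h5 x
    set q := c * ‖e w - φ x‖ with hq
    have hq0 : 0 ≤ q := by positivity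
    have k2 : ‖e w - φ x‖ ≤ q := le_mul_of_one_le_left (norm_nonneg _) hc
    have k3 : ‖x‖ < 1 + ρ * κ / (4 * a) - q := by linarith
    have k4 : a * ‖x‖ ≤ a * (1 + ρ * κ / (4 * a) - q) := mul_le_mul_of_nonneg_left k3.le ha0.le
    have k5 : a * (1 + ρ * κ / (4 * a) - q) = a + ρ * κ / 4 - a * q := by
      field_simp
    have k6 : q * (a - b) ≤ ρ * κ / 4 := by
      have : q * (a - b) = a * q - q * b := by ring
      linarith
    have k7 : q * (κ / 2) ≤ q * (a - b) := mul_le_mul_of_nonneg_left hab hq0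
    have k8 : q * (κ / 2) ≤ ρ / 2 * (κ / 2) := by linarith
    have k9 : q ≤ ρ / 2 := le_of_mul_le_mul_right k8 (by positivity)
    linarith
  rw [φ.isometry.isClosedEmbedding.isClosed_range.closure_eq] at hcl
  obtain ⟨x₀, hx₀⟩ := hcl
  have hwJ : w = J x₀ := by
    apply e.injective
    rw [heJ, hx₀]
  refine ⟨S.comp J, ⟨x₀, ?_, ?_⟩, ?_⟩
  · rw [← hJ, ← hwJ]
    exact hw1
  · apply le_antisymm
    · refine (ContinuousLinearMap.le_opNorm _ _).trans (mul_le_of_le_one_right (norm_nonneg _) ?_)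
      rw [← hJ, ← hwJ]
      exact hw1
    · change a ≤ ‖S (J x₀)‖
      rw [← hwJ, hw2]
      exact h2
  · rw [dist_eq_norm]
    exact h1.trans_lt hS1

theorem zero_mem {X Y : Type*} [NormedAddCommGroup X] [NormedSpace ℝ X] [NormedAddCommGroup Y]
    [NormedSpace ℝ Y] : (0 : X →L[ℝ] Y) ∈ closure (NA X Y) :=
  subset_closure ⟨0, by simp, by simp⟩

/-- extension of an operator with values in a finite-dimensional space -/
theorem extend_finite {X Y V : Type*} [NormedAddCommGroup X] [NormedSpace ℝ X]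
    [NormedAddCommGroup Y] [NormedSpace ℝ Y] [FiniteDimensional ℝ Y]
    [NormedAddCommGroup V] [NormedSpace ℝ V] (φ : X →ₗᵢ[ℝ] V) (T : X →L[ℝ] Y) :
    ∃ g : V →L[ℝ] Y, ∀ x, g (φ x) = T x := by
  obtain ⟨g, hg⟩ := ContinuousLinearMap.exist_extension_of_finiteDimensional_range
    (S := LinearMap.range φ.toLinearMap)
    (T.comp (φ.equivRange.symm.toContinuousLinearEquiv : LinearMap.range φ.toLinearMap →L[ℝ] X))
  refine ⟨g, fun x => ?_⟩
  have h1 := congrArg (fun k => k (φ.equivRange x)) hg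
  simp only [ContinuousLinearMap.comp_apply] at h1
  have h2 : (φ.equivRange.symm.toContinuousLinearEquiv : LinearMap.range φ.toLinearMap →L[ℝ] X)
      (φ.equivRange x) = x := φ.equivRange.symm_apply_apply x
  rw [h2] at h1
  exact h1.symm

theorem exists_embedding_cantor (X : Type*) [NormedAddCommGroup X] [NormedSpace ℝ X]
    [TopologicalSpace.SeparableSpace X] : Nonempty (X →ₗᵢ[ℝ] C(ℕ → Bool, ℝ)) := by
  let K : Set (WeakDual ℝ X) := WeakDual.toStrongDual ⁻¹' Metric.closedBall 0 1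
  have hK : IsCompact K := WeakDual.isCompact_closedBall 0 1
  have hKm : TopologicalSpace.MetrizableSpace K := WeakDual.metrizable_of_isCompact ℝ X K hK
  have hKc : CompactSpace K := isCompact_iff_compactSpace.1 hK
  have hmem : ∀ k : WeakDual ℝ X, k ∈ K ↔ ‖WeakDual.toStrongDual k‖ ≤ 1 := fun k => by
    change WeakDual.toStrongDual k ∈ Metric.closedBall 0 1 ↔ _
    rw [mem_closedBall_zero_iff]
  have hKn : Nonempty K := ⟨⟨0, (hmem 0).2 (by simp)⟩⟩
  let _ : MetricSpace K := TopologicalSpace.metrizableSpaceMetric K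
  obtain ⟨p, hp, hps⟩ := exists_nat_bool_continuous_surjective_of_compact K
  have hle : ∀ (k : K) (x : X), ‖(k : WeakDual ℝ X) x‖ ≤ ‖x‖ := fun k x => by
    refine ((WeakDual.toStrongDual (k : WeakDual ℝ X)).le_opNorm x).trans ?_
    exact mul_le_of_le_one_left (norm_nonneg _) ((hmem _).1 k.2)
  let f : X →ₗ[ℝ] C(ℕ → Bool, ℝ) :=
    { toFun := fun x => ⟨fun b => (p b : WeakDual ℝ X) x,
        (WeakDual.eval_continuous x).comp (continuous_subtype_val.comp hp)⟩
      map_add' := fun x y => by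
        ext b
        exact map_add (p b : WeakDual ℝ X) x y
      map_smul' := fun c x => by
        ext b
        exact map_smul (p b : WeakDual ℝ X) c x }
  refine ⟨⟨f, fun x => ?_⟩⟩
  apply le_antisymm
  · rw [ContinuousMap.norm_le _ (norm_nonneg _)]
    intro b
    exact hle (p b) x
  · obtain ⟨g, hg1, hg2⟩ := exists_dual_vector'' ℝ x
    obtain ⟨b, hb⟩ := hps ⟨StrongDual.toWeakDual g, (hmem _).2 hg1⟩
    have h1 := ContinuousMap.norm_coe_le_norm (f x) b
    have h2 : f x b = ‖x‖ := by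
      change (p b : WeakDual ℝ X) x = _
      rw [hb]
      simpa using hg2
    rw [h2, norm_norm] at h1
    exact h1

/-- the norm attaining operators `X → Y` are dense -/
def NADense (X Y : Type) [NormedAddCommGroup X] [NormedSpace ℝ X] [NormedAddCommGroup Y]
    [NormedSpace ℝ Y] : Prop := Dense (NA X Y)

/-- property B of `Y`: for every real Banach space `X` the norm attaining operators `X → Y` are dense -/
def PropertyB (Y : Type) [NormedAddCommGroup Y] [NormedSpace ℝ Y] : Prop :=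
  ∀ (X : Type) [NormedAddCommGroup X] [NormedSpace ℝ X] [CompleteSpace X], NADense X Y

/-- for every `X` that is `V` with a norm `N` such that `‖v‖ ≤ N v ≤ c ‖v‖` the operator `P`, as an operator
`X → Y`, is a limit of norm attaining operators -/
def Approximable (c : ℝ) {V Y : Type} [NormedAddCommGroup V] [NormedSpace ℝ V]
    [NormedAddCommGroup Y] [NormedSpace ℝ Y] (P : V →L[ℝ] Y) : Prop :=
  ∀ (X : Type) [NormedAddCommGroup X] [NormedSpace ℝ X] [CompleteSpace X] (e : X ≃L[ℝ] V),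
    (∀ x, ‖e x‖ ≤ ‖x‖ ∧ ‖x‖ ≤ c * ‖e x‖) → P.comp (e : X →L[ℝ] V) ∈ closure (NA X Y)

/-- `X` is isomorphic to `V` -/
def Isomorphic (V X : Type) [NormedAddCommGroup V] [NormedSpace ℝ V]
    [NormedAddCommGroup X] [NormedSpace ℝ X] : Prop := Nonempty (X ≃L[ℝ] V)

/-- **Domain spaces which suffice for property B.** For every finite-dimensional real normed space `Y` the
following are equivalent: `Y` has property B, that is, the norm attaining operators are dense for every domain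
space; they are dense for one space `W`, the `ℓ_1`-sum of all closed subspaces of `ℓ_∞`; they are dense for every
domain space that is isomorphic to the separable space `C(Δ)`, `Δ` the Cantor set; for any `c > 1`, they
approximate the projection `C(Δ) × Y → Y` whenever the space `C(Δ) × Y`, with the maximum norm, is renormed by
some `N` with `‖v‖ ≤ N v ≤ c ‖v‖`. -/
theorem result : ∃ (W : Type) (_ : NormedAddCommGroup W) (_ : NormedSpace ℝ W)
    (_ : CompleteSpace W), ∀ (Y : Type) [NormedAddCommGroup Y] [NormedSpace ℝ Y]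
    [FiniteDimensional ℝ Y],
    (PropertyB Y ↔ NADense W Y) ∧
    (PropertyB Y ↔ ∀ (X : Type) [NormedAddCommGroup X] [NormedSpace ℝ X] [CompleteSpace X],
      Isomorphic C(ℕ → Bool, ℝ) X → NADense X Y) ∧
    ∀ c : ℝ, 1 < c →
      (PropertyB Y ↔ Approximable c (ContinuousLinearMap.snd ℝ C(ℕ → Bool, ℝ) Y)) := by
  refine ⟨TestSpace, inferInstance, inferInstance, inferInstance, fun Y _ _ _ => ?_⟩
  have key : (∀ (X : Type) [NormedAddCommGroup X] [NormedSpace ℝ X] [CompleteSpace X]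
      [TopologicalSpace.SeparableSpace X], Dense (NA X Y)) → PropertyB Y := by
    intro h X _ _ _
    refine separable fun Z hZ1 hZ2 => ?_
    have := hZ1.completeSpace_coe
    have := hZ2.separableSpace
    exact h Z
  have : CompleteSpace Y := FiniteDimensional.complete ℝ Y
  refine ⟨⟨fun h => h TestSpace, fun h => key fun X _ _ _ _ => of_test h X⟩,
    ⟨fun h X _ _ _ _ => h X, fun h => key fun X _ _ _ _ T => ?_⟩,
    fun c hc => ⟨fun h X _ _ _ e _ => h X _, fun h => key fun X _ _ _ _ T => ?_⟩⟩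
  · by_cases hT : T = 0
    · rw [hT]; exact zero_mem
    have hTn : 0 < ‖T‖ := norm_pos_iff.2 hT
    obtain ⟨φ⟩ := exists_embedding_cantor X
    obtain ⟨g, hg⟩ := extend_finite φ T
    refine renorm φ (max 1 (‖g‖ / ‖T‖ + 1)) (le_max_left _ _) T g hg ?_
      (fun V' _ _ _ e _ => h V' ⟨e⟩ _)
    rw [← div_lt_iff₀ hTn]
    exact (lt_add_one _).trans_le (le_max_right _ _)
  · by_cases hT : T = 0
    · rw [hT]; exact zero_mem
    have hTn : 0 < ‖T‖ := norm_pos_iff.2 hT
    obtain ⟨φ⟩ := exists_embedding_cantor X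
    let φ' : X →ₗᵢ[ℝ] C(ℕ → Bool, ℝ) × Y :=
      { toLinearMap := φ.toLinearMap.prod (‖T‖⁻¹ • (T : X →ₗ[ℝ] Y))
        norm_map' := fun x => by
          change ‖((φ x, ‖T‖⁻¹ • T x) : C(ℕ → Bool, ℝ) × Y)‖ = ‖x‖
          rw [Prod.norm_mk, φ.norm_map, norm_smul, norm_inv, norm_norm]
          apply max_eq_left
          rw [inv_mul_le_iff₀ hTn]
          exact T.le_opNorm x }
    let g : C(ℕ → Bool, ℝ) × Y →L[ℝ] Y := ‖T‖ • ContinuousLinearMap.snd ℝ C(ℕ → Bool, ℝ) Y
    have hgT : ∀ x, g (φ' x) = T x := fun x => by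
      change ‖T‖ • (‖T‖⁻¹ • T x) = T x
      rw [smul_smul, mul_inv_cancel₀ hTn.ne', one_smul]
    have hgn : ‖g‖ ≤ ‖T‖ := g.opNorm_le_bound hTn.le (fun v => by
      change ‖‖T‖ • v.2‖ ≤ _
      rw [norm_smul, norm_norm]
      exact mul_le_mul_of_nonneg_left (norm_snd_le v) hTn.le)
    refine renorm φ' c hc.le T g hgT (by nlinarith) fun V' _ _ _ e he => ?_
    have hsm : ‖T‖ • ((ContinuousLinearMap.snd ℝ C(ℕ → Bool, ℝ) Y).comp
        (e : V' →L[ℝ] C(ℕ → Bool, ℝ) × Y)) ∈ closure (NA V' Y) := by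
      refine map_mem_closure (f := fun S : V' →L[ℝ] Y => ‖T‖ • S) (continuous_const_smul _)
        (h V' e he) ?_
      rintro S ⟨x, hx1, hx2⟩
      exact ⟨x, hx1, by
        change ‖‖T‖ • S x‖ = _
        rw [norm_smul, norm_smul, hx2]⟩
    exact hsm

end Pool.Agent.Results.MP_b6bd4b_an.RenormingsSuffice
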